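import Pool.Agent.H70.UsePrinciple

namespace Pool.Agent.H70

open Encodable Nat.Partrec

/-- With the prefix `σ` of the oracle (of length `s`) and `s` steps of computation, algorithm `e`
is seen to put `n` in its set. -/
def seen (σ : List ℕ) (e n : ℕ) : Prop :=
  ∃ l < σ.length + 1,
    Code.evaln σ.length (Denumerable.ofNat Code e) (encode (σ.take l, n)) = some 1

instance (σ : List ℕ) (e n : ℕ) : Decidable (seen σ e n) := by
  unfold seen; infer_instance

/-- Available candidates for requirement `e`. -/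
def cand (σ : List ℕ) (e : ℕ) (used : List ℕ) : List ℕ :=
  (List.range σ.length).filter (fun n => decide (seen σ e n ∧ n ∉ used))

/-- One step of the greedy construction. -/
def stepD (σ : List ℕ) (st : List ℕ × List ℕ) (e : ℕ) : List ℕ × List ℕ :=
  match cand σ e st.1 with
  | a :: b :: _ => (a :: b :: st.1, a :: st.2)
  | _ => st

/-- The state after treating the first `k` requirements. -/
def stateD (σ : List ℕ) (k : ℕ) : List ℕ × List ℕ :=
  (List.range k).foldl (stepD σ) ([], [])

/-- The colour given to `a` by the greedy construction. -/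
def diag (σ : List ℕ) (a : ℕ) : ℕ := if a ∈ (stateD σ σ.length).2 then 1 else 0

theorem stateD_succ (σ : List ℕ) (k : ℕ) : stateD σ (k + 1) = stepD σ (stateD σ k) k := by
  simp [stateD, List.range_succ]

theorem stateD_zero (σ : List ℕ) : stateD σ 0 = ([], []) := rfl

theorem stepD_cases (σ : List ℕ) (st : List ℕ × List ℕ) (e : ℕ) :
    (∃ a b t, cand σ e st.1 = a :: b :: t ∧ stepD σ st e = (a :: b :: st.1, a :: st.2)) ∨
      ((cand σ e st.1).length < 2 ∧ stepD σ st e = st) := by
  unfold stepD
  rcases h : cand σ e st.1 with _ | ⟨a, _ | ⟨b, t⟩⟩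
  · right; simp
  · right; simp
  · left; exact ⟨a, b, t, rfl, rfl⟩

theorem stateD_length (σ : List ℕ) (k : ℕ) : (stateD σ k).1.length ≤ 2 * k := by
  induction k with
  | zero => simp [stateD_zero]
  | succ k ih =>
    rw [stateD_succ]
    rcases stepD_cases σ (stateD σ k) k with ⟨a, b, t, _, h⟩ | ⟨_, h⟩
    · rw [h]; simp; omega
    · rw [h]; omega

theorem mem_cand {σ : List ℕ} {e : ℕ} {used : List ℕ} {n : ℕ} :
    n ∈ cand σ e used ↔ n < σ.length ∧ seen σ e n ∧ n ∉ used := by
  simp [cand]

theorem stateD_sub (σ : List ℕ) (k : ℕ) : ∀ n ∈ (stateD σ k).2, n ∈ (stateD σ k).1 := by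
  induction k with
  | zero => simp [stateD_zero]
  | succ k ih =>
    rw [stateD_succ]
    rcases stepD_cases σ (stateD σ k) k with ⟨a, b, t, _, h⟩ | ⟨_, h⟩
    · rw [h]
      intro n hn
      simp only [List.mem_cons] at hn ⊢
      rcases hn with rfl | hn
      · left; rfl
      · right; right; exact ih n hn
    · rw [h]; exact ih

theorem stateD_mono_used (σ : List ℕ) {k m : ℕ} (hkm : k ≤ m) :
    ∀ n ∈ (stateD σ k).1, n ∈ (stateD σ m).1 := by
  induction m, hkm using Nat.le_induction with
  | base => exact fun n hn => hn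
  | succ m _ ih =>
    intro n hn
    rw [stateD_succ]
    rcases stepD_cases σ (stateD σ m) m with ⟨a, b, t, _, h⟩ | ⟨_, h⟩
    · rw [h]
      simp only [List.mem_cons]
      right; right; exact ih n hn
    · rw [h]; exact ih n hn

theorem stateD_mono_ones (σ : List ℕ) {k m : ℕ} (hkm : k ≤ m) :
    ∀ n ∈ (stateD σ k).2, n ∈ (stateD σ m).2 := by
  induction m, hkm using Nat.le_induction with
  | base => exact fun n hn => hn
  | succ m _ ih =>
    intro n hn
    rw [stateD_succ]
    rcases stepD_cases σ (stateD σ m) m with ⟨a, b, t, _, h⟩ | ⟨_, h⟩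
    · rw [h]
      simp only [List.mem_cons]
      right; exact ih n hn
    · rw [h]; exact ih n hn

theorem stateD_frozen (σ : List ℕ) {k m : ℕ} (hkm : k ≤ m) :
    ∀ n ∈ (stateD σ k).1, n ∉ (stateD σ k).2 → n ∉ (stateD σ m).2 := by
  induction m, hkm using Nat.le_induction with
  | base => exact fun n _ hn => hn
  | succ m hkm ih =>
    intro n hn hn'
    rw [stateD_succ]
    rcases stepD_cases σ (stateD σ m) m with ⟨a, b, t, hc, h⟩ | ⟨_, h⟩
    · rw [h]
      simp only [List.mem_cons, not_or]
      refine ⟨?_, ih n hn hn'⟩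
      rintro rfl
      have : n ∈ cand σ m (stateD σ m).1 := by rw [hc]; simp
      exact (mem_cand.1 this).2.2 (stateD_mono_used σ hkm n hn)
    · rw [h]; exact ih n hn hn'

/-- The greedy construction satisfies every active requirement. -/
theorem diag_spec (σ : List ℕ) (e : ℕ) (he : e < σ.length)
    (A : Finset ℕ) (hA : ∀ n ∈ A, n < σ.length ∧ seen σ e n) (hcard : 2 * e + 2 ≤ A.card) :
    ∃ a b, a < σ.length ∧ b < σ.length ∧ seen σ e a ∧ seen σ e b ∧
      diag σ a = 1 ∧ diag σ b = 0 := by
  have hlen : 2 ≤ (cand σ e (stateD σ e).1).length := by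
    have h1 : A \ (stateD σ e).1.toFinset ⊆ (cand σ e (stateD σ e).1).toFinset := by
      intro n hn
      simp only [Finset.mem_sdiff, List.mem_toFinset] at hn
      rw [List.mem_toFinset, mem_cand]
      exact ⟨(hA n hn.1).1, (hA n hn.1).2, hn.2⟩
    have h2 := Finset.card_le_card h1
    have h3 := List.toFinset_card_le (cand σ e (stateD σ e).1)
    have h4 := List.toFinset_card_le (stateD σ e).1
    have h5 := stateD_length σ e
    have h6 := Finset.le_card_sdiff (stateD σ e).1.toFinset A
    omega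
  rcases stepD_cases σ (stateD σ e) e with ⟨a, b, t, hc, h⟩ | ⟨hlt, _⟩
  · have hnd : (cand σ e (stateD σ e).1).Nodup := (List.nodup_range).filter _
    rw [hc] at hnd
    have hab : a ≠ b := by
      simp only [List.nodup_cons, List.mem_cons, not_or] at hnd
      exact hnd.1.1
    have ha : a ∈ cand σ e (stateD σ e).1 := by rw [hc]; simp
    have hb : b ∈ cand σ e (stateD σ e).1 := by rw [hc]; simp
    rw [mem_cand] at ha hb
    have hst : stateD σ (e + 1) = (a :: b :: (stateD σ e).1, a :: (stateD σ e).2) := by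
      rw [stateD_succ, h]
    refine ⟨a, b, ha.1, hb.1, ha.2.1, hb.2.1, ?_, ?_⟩
    · unfold diag
      rw [if_pos]
      apply stateD_mono_ones σ (Nat.succ_le_of_lt he)
      rw [Nat.succ_eq_add_one, hst]; simp
    · unfold diag
      rw [if_neg]
      apply stateD_frozen σ (Nat.succ_le_of_lt he)
      · rw [Nat.succ_eq_add_one, hst]; simp
      · rw [Nat.succ_eq_add_one, hst]
        simp only [List.mem_cons, not_or]
        exact ⟨fun hh => hab hh.symm, fun hh => hb.2.2 (stateD_sub σ e b hh)⟩
  · omega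

theorem seen_primrec : PrimrecRel (fun (n : ℕ) (y : List ℕ × ℕ) => seen y.1 y.2 n) := by
  -- inner relation in `l` and `(σ, e, n)`
  have h0 : PrimrecRel (fun (l : ℕ) (y : List ℕ × ℕ × ℕ) =>
      Code.evaln y.1.length (Denumerable.ofNat Code y.2.1) (encode (y.1.take l, y.2.2))
        = some 1) := by
    refine Primrec.eq.comp ?_ (Primrec.const (some 1))
    refine Code.primrec_evaln.comp (Primrec.pair (Primrec.pair ?_ ?_) ?_)
    · exact Primrec.list_length.comp (Primrec.fst.comp Primrec.snd)
    · exact (Primrec.ofNat Code).comp (Primrec.fst.comp (Primrec.snd.comp Primrec.snd))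
    · refine Primrec.encode.comp (Primrec.pair ?_ ?_)
      · exact Primrec.list_take.comp Primrec.fst (Primrec.fst.comp Primrec.snd)
      · exact Primrec.snd.comp (Primrec.snd.comp Primrec.snd)
  have h1 : PrimrecRel (fun (L : List ℕ) (y : List ℕ × ℕ × ℕ) => ∃ l ∈ L,
      Code.evaln y.1.length (Denumerable.ofNat Code y.2.1) (encode (y.1.take l, y.2.2))
        = some 1) := h0.exists_mem_list
  have h2 : PrimrecPred (fun (y : ℕ × List ℕ × ℕ) => ∃ l ∈ List.range (y.2.1.length + 1),
      Code.evaln y.2.1.length (Denumerable.ofNat Code y.2.2) (encode (y.2.1.take l, y.1))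
        = some 1) := by
    refine h1.comp (f := fun y : ℕ × List ℕ × ℕ => List.range (y.2.1.length + 1))
      (g := fun y : ℕ × List ℕ × ℕ => (y.2.1, y.2.2, y.1)) ?_ ?_
    · exact Primrec.list_range.comp (Primrec.succ.comp
        (Primrec.list_length.comp (Primrec.fst.comp Primrec.snd)))
    · exact Primrec.pair (Primrec.fst.comp Primrec.snd)
        (Primrec.pair (Primrec.snd.comp Primrec.snd) Primrec.fst)
  refine h2.of_eq ?_
  intro y
  simp [seen]

theorem mem_list_primrec : PrimrecRel (fun (n : ℕ) (L : List ℕ) => n ∈ L) := by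
  have h : PrimrecRel (fun (L : List ℕ) (n : ℕ) => ∃ a ∈ L, a = n) :=
    PrimrecRel.exists_mem_list (Primrec.eq (α := ℕ))
  exact (h.comp Primrec.snd Primrec.fst).of_eq (by intro y; simp)

theorem cand_primrec :
    Primrec (fun (y : (List ℕ × ℕ) × List ℕ) => cand y.1.1 y.1.2 y.2) := by
  have hR : PrimrecRel (fun (n : ℕ) (y : (List ℕ × ℕ) × List ℕ) =>
      seen y.1.1 y.1.2 n ∧ n ∉ y.2) := by
    refine PrimrecPred.and ?_ ?_
    · exact seen_primrec.comp Primrec.fst (Primrec.fst.comp Primrec.snd)
    · exact (mem_list_primrec.comp Primrec.fst (Primrec.snd.comp Primrec.snd)).not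
  exact (PrimrecRel.listFilter hR).comp
    (g := fun y : (List ℕ × ℕ) × List ℕ => List.range y.1.1.length)
    (h := fun y : (List ℕ × ℕ) × List ℕ => y)
    (Primrec.list_range.comp (Primrec.list_length.comp (Primrec.fst.comp Primrec.fst)))
    Primrec.id

theorem stepD_primrec :
    Primrec (fun (y : List ℕ × ((List ℕ × List ℕ) × ℕ)) => stepD y.1 y.2.1 y.2.2) := by
  have hc : Primrec (fun (y : List ℕ × ((List ℕ × List ℕ) × ℕ)) => cand y.1 y.2.2 y.2.1.1) :=
    cand_primrec.comp (Primrec.pair (Primrec.pair Primrec.fst (Primrec.snd.comp Primrec.snd))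
      (Primrec.fst.comp (Primrec.fst.comp Primrec.snd)))
  have hst : Primrec (fun (y : List ℕ × ((List ℕ × List ℕ) × ℕ)) => y.2.1) :=
    Primrec.fst.comp Primrec.snd
  have h : Primrec (fun (y : List ℕ × ((List ℕ × List ℕ) × ℕ)) =>
      if 2 ≤ (cand y.1 y.2.2 y.2.1.1).length then
        ((cand y.1 y.2.2 y.2.1.1).getD 0 0 :: (cand y.1 y.2.2 y.2.1.1).getD 1 0 :: y.2.1.1,
          (cand y.1 y.2.2 y.2.1.1).getD 0 0 :: y.2.1.2)
      else y.2.1) := by
    refine Primrec.ite ?_ ?_ hst
    · exact Primrec.nat_le.comp (Primrec.const 2) (Primrec.list_length.comp hc)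
    · have h0 := (Primrec.list_getD (0 : ℕ)).comp hc (Primrec.const 0)
      have h1 := (Primrec.list_getD (0 : ℕ)).comp hc (Primrec.const 1)
      refine Primrec.pair ?_ ?_
      · exact Primrec.list_cons.comp h0 (Primrec.list_cons.comp h1 (Primrec.fst.comp hst))
      · exact Primrec.list_cons.comp h0 (Primrec.snd.comp hst)
  refine h.of_eq ?_
  intro y
  unfold stepD
  rcases cand y.1 y.2.2 y.2.1.1 with _ | ⟨a, _ | ⟨b, t⟩⟩
  · simp
  · simp
  · simp

theorem diag_primrec : Primrec₂ diag := by
  have hs : Primrec (fun σ : List ℕ => stateD σ σ.length) := by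
    refine Primrec.list_foldl (f := fun σ : List ℕ => List.range σ.length)
      (g := fun _ => (([], []) : List ℕ × List ℕ))
      (h := fun σ y => stepD σ y.1 y.2) ?_ (Primrec.const _) ?_
    · exact Primrec.list_range.comp Primrec.list_length
    · exact stepD_primrec
  refine Primrec.ite ?_ (Primrec.const 1) (Primrec.const 0)
  exact mem_list_primrec.comp Primrec.snd (Primrec.snd.comp (hs.comp Primrec.fst))

/-- If `q` is computed from `p` and the set of `q` is infinite, then for almost all `s` the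
colouring `diag (p ↾ s)` is not constant on the part of the set below `s`. -/
theorem diag_diagonalizes {p q : Baire} (h : PrefixComputes p q)
    (hinf : {n | q n = 1}.Infinite) :
    ∃ s₀, ∀ s, s₀ ≤ s → ∃ a b, a < s ∧ b < s ∧ q a = 1 ∧ q b = 1 ∧
      diag (pre p s) a = 1 ∧ diag (pre p s) b = 0 := by
  obtain ⟨φ, hφ, hq⟩ := h
  obtain ⟨c, hc⟩ := Code.exists_code.1 hφ
  have hceval : ∀ (l : List ℕ) (n v : ℕ), v ∈ c.eval (encode (l, n)) ↔ v ∈ φ l n := by
    intro l n v
    rw [hc]
    simp
  set e := encode c with he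
  -- take `2e+2` elements of the set
  obtain ⟨A, hAsub, hAcard⟩ := hinf.exists_subset_card_eq (2 * e + 2)
  -- for each of them a stage from which it is seen
  have hst : ∀ n ∈ A, ∃ s, ∀ t, s ≤ t → seen (pre p t) e n := by
    intro n hn
    have hqn : q n = 1 := hAsub hn
    obtain ⟨⟨l, hl⟩, _⟩ := hq n
    rw [hqn, ← hceval, Code.evaln_complete] at hl
    obtain ⟨k, hk⟩ := hl
    refine ⟨max l k, fun t ht => ?_⟩
    have hlt : l ≤ t := le_trans (le_max_left _ _) ht
    refine ⟨l, by simp; omega, ?_⟩
    rw [pre_length, pre_take p hlt, he, Denumerable.ofNat_encode]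
    exact Code.evaln_mono (le_trans (le_max_right _ _) ht) hk
  choose! S hS using hst
  refine ⟨max (A.sup S) (max (A.sup id + 1) (e + 1)), fun s hs => ?_⟩
  have hs1 : A.sup S ≤ s := le_trans (le_max_left _ _) hs
  have hs2 : A.sup id + 1 ≤ s := le_trans (le_trans (le_max_left _ _) (le_max_right _ _)) hs
  have hs3 : e + 1 ≤ s := le_trans (le_trans (le_max_right _ _) (le_max_right _ _)) hs
  have hsound : ∀ n, seen (pre p s) e n → q n = 1 := by
    rintro n ⟨l, hl, h1⟩
    rw [pre_length] at hl h1
    rw [pre_take p (by omega), he, Denumerable.ofNat_encode] at h1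
    have h2 : 1 ∈ c.eval (encode (pre p l, n)) := Code.evaln_sound h1
    rw [hceval] at h2
    exact ((hq n).2 l 1 h2).symm
  obtain ⟨a, b, ha, hb, hsa, hsb, hda, hdb⟩ := diag_spec (pre p s) e (by simpa using hs3) A
    (fun n hn => ⟨by
      have : n ≤ A.sup id := Finset.le_sup (f := id) hn
      rw [pre_length]; omega,
      hS n hn s (le_trans (Finset.le_sup hn) hs1)⟩) (le_of_eq hAcard.symm)
  rw [pre_length] at ha hb
  exact ⟨a, b, ha, hb, hsound a hsa, hsound b hsb, hda, hdb⟩

end Pool.Agent.H70
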