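import Pool.Agent.H70.Weihrauch

namespace Pool.Agent.H70

open Encodable

/-- `Φ` is a computable functional. -/
abbrev FC (Φ : Baire → ℕ →. ℕ) : Prop := OracleComputable Φ

theorem FC.of_eq {Φ Ψ : Baire → ℕ →. ℕ} (h : FC Φ) (H : ∀ x n, Φ x n = Ψ x n) : FC Ψ := by
  have : Φ = Ψ := funext fun x => funext fun n => H x n
  rwa [← this]

theorem FC.oracle : FC (fun x n => Part.some (x n)) := OracleComputable.oracle

theorem FC.pair {Φ Ψ : Baire → ℕ →. ℕ} (h : FC Φ) (h' : FC Ψ) :
    FC (fun x n => Nat.pair <$> Φ x n <*> Ψ x n) := by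
  refine FC.of_eq (OracleComputable.pair h h') ?_
  intro x n
  simp only [Seq.seq, Part.map_eq_map, Part.bind_map]

theorem FC.comp {Φ Ψ : Baire → ℕ →. ℕ} (h : FC Φ) (h' : FC Ψ) :
    FC (fun x n => Ψ x n >>= Φ x) := OracleComputable.comp h h'

theorem FC.prec {Φ Ψ : Baire → ℕ →. ℕ} (h : FC Φ) (h' : FC Ψ) :
    FC (fun x p => (Nat.unpair p).2.rec (Φ x (Nat.unpair p).1) fun y IH => do
        let i ← IH
        Ψ x (Nat.pair (Nat.unpair p).1 (Nat.pair y i))) := OracleComputable.prec h h'

theorem FC.rfind {Φ : Baire → ℕ →. ℕ} (h : FC Φ) :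
    FC (fun x p => Nat.rfind fun n => (fun m => decide (m = 0)) <$> Φ x (Nat.pair p n)) :=
  OracleComputable.rfind h

theorem FC.of_partrec {f : ℕ →. ℕ} (h : Nat.Partrec f) : FC (fun _ n => f n) := by
  induction h with
  | zero => exact OracleComputable.zero
  | succ => exact OracleComputable.succ
  | left => exact OracleComputable.left
  | right => exact OracleComputable.right
  | pair _ _ ih₁ ih₂ => exact FC.pair ih₁ ih₂
  | comp _ _ ih₁ ih₂ => exact FC.comp ih₁ ih₂
  | prec _ _ ih₁ ih₂ => exact FC.prec ih₁ ih₂
  | rfind _ ih => exact FC.rfind ih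

theorem FC.of_computable {f : ℕ → ℕ} (h : Computable f) : FC (fun _ n => Part.some (f n)) :=
  FC.of_partrec (Partrec.nat_iff.1 h)

/-- The prefix of length `n` of `x`. -/
def pre (x : Baire) (n : ℕ) : List ℕ := (List.range n).map x

theorem pre_succ (x : Baire) (n : ℕ) : pre x (n + 1) = pre x n ++ [x n] := by
  simp [pre, List.range_succ]

@[simp] theorem pre_length (x : Baire) (n : ℕ) : (pre x n).length = n := by simp [pre]

theorem pre_getElem? (x : Baire) {n k : ℕ} (h : k < n) : (pre x n)[k]? = some (x k) := by
  simp [pre, h]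

theorem pre_getElem?_ge (x : Baire) {n k : ℕ} (h : n ≤ k) : (pre x n)[k]? = none := by
  simp [pre, h]

theorem pre_take (x : Baire) {n k : ℕ} (h : k ≤ n) : (pre x n).take k = pre x k := by
  apply List.ext_getElem?
  intro i
  rw [List.getElem?_take]
  split_ifs with hi
  · rw [pre_getElem? x (lt_of_lt_of_le hi h), pre_getElem? x hi]
  · rw [pre_getElem?_ge x (not_lt.1 hi)]

/-- Appending an element to a coded list. -/
def appendCode (t : ℕ) : ℕ :=
  encode (((decode (α := List ℕ) t.unpair.1).getD []) ++ [t.unpair.2])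

theorem appendCode_computable : Computable appendCode := by
  apply Primrec.to_comp
  unfold appendCode
  refine Primrec.encode.comp ?_
  refine Primrec.list_append.comp ?_ ?_
  · exact Primrec.option_getD.comp (Primrec.decode.comp (Primrec.fst.comp Primrec.unpair))
      (Primrec.const [])
  · exact Primrec.list_cons.comp (Primrec.snd.comp Primrec.unpair) (Primrec.const [])

theorem FC.pre_code : FC (fun x n => Part.some (encode (pre x n))) := by
  -- step functional: input ⟨a, ⟨y, i⟩⟩, output appendCode ⟨i, x y⟩
  have hstep : FC (fun (x : Baire) (t : ℕ) =>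
      Part.some (appendCode (Nat.pair t.unpair.2.unpair.2 (x t.unpair.2.unpair.1)))) := by
    have h1 : FC (fun (_ : Baire) (t : ℕ) => Part.some t.unpair.2.unpair.2) :=
      FC.of_computable (f := fun t => t.unpair.2.unpair.2)
        ((Primrec.snd.comp (Primrec.unpair.comp (Primrec.snd.comp Primrec.unpair))).to_comp)
    have h2 : FC (fun (_ : Baire) (t : ℕ) => Part.some t.unpair.2.unpair.1) :=
      FC.of_computable (f := fun t => t.unpair.2.unpair.1)
        ((Primrec.fst.comp (Primrec.unpair.comp (Primrec.snd.comp Primrec.unpair))).to_comp)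
    refine ((FC.of_computable appendCode_computable).comp
      (h1.pair (FC.oracle.comp h2))).of_eq ?_
    intro x t
    simp [Seq.seq]
  have hzero : FC (fun (_ : Baire) (_ : ℕ) => Part.some (encode ([] : List ℕ))) :=
    FC.of_computable (f := fun _ => encode ([] : List ℕ)) (Computable.const _)
  have hin : FC (fun (_ : Baire) (n : ℕ) => Part.some (Nat.pair 0 n)) :=
    FC.of_computable (f := fun n => Nat.pair 0 n)
      ((Primrec₂.natPair.comp (Primrec.const 0) Primrec.id).to_comp)
  refine ((hzero.prec hstep).comp hin).of_eq ?_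
  intro x n
  simp only [Part.bind_eq_bind, Part.bind_some, Nat.unpair_pair]
  induction n with
  | zero => simp [pre]
  | succ n ih =>
    simp only [Part.bind_some, ih]
    simp [appendCode, pre_succ]

/-- Main tool: a functional given by unbounded search over prefixes is computable. -/
theorem FC.search {g : List ℕ → ℕ → Option ℕ} (hg : Computable₂ g) :
    FC (fun x n => Nat.rfindOpt fun l => g (pre x l) n) := by
  -- `A x ⟨n, l⟩ = (encode (pre x l), n)` coded
  have hpre : FC (fun (x : Baire) (t : ℕ) =>
      Part.some (Nat.pair (encode (pre x t.unpair.2)) t.unpair.1)) := by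
    have h1 : FC (fun (_ : Baire) (t : ℕ) => Part.some t.unpair.2) :=
      FC.of_computable (f := fun t => t.unpair.2) ((Primrec.snd.comp Primrec.unpair).to_comp)
    have h2 : FC (fun (_ : Baire) (t : ℕ) => Part.some t.unpair.1) :=
      FC.of_computable (f := fun t => t.unpair.1) ((Primrec.fst.comp Primrec.unpair).to_comp)
    refine ((FC.pre_code.comp h1).pair h2).of_eq ?_
    intro x t
    simp [Seq.seq]
  let G : ℕ → Option ℕ := fun t => g ((decode (α := List ℕ) t.unpair.1).getD []) t.unpair.2
  have hG : Computable G := by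
    refine hg.comp ?_ ?_
    · exact (Primrec.option_getD.comp (Primrec.decode.comp (Primrec.fst.comp Primrec.unpair))
        (Primrec.const [])).to_comp
    · exact (Primrec.snd.comp Primrec.unpair).to_comp
  have hGv : Computable (fun t => (G t).getD 0) :=
    Computable.option_getD hG (Computable.const 0)
  have hGt : Computable (fun t => if (G t).isSome then 0 else 1) := by
    refine (Computable.cond (Primrec.option_isSome.to_comp.comp hG) (Computable.const 0)
      (Computable.const 1)).of_eq ?_
    intro t
    cases (G t).isSome <;> rfl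
  have hT : FC (fun (x : Baire) (t : ℕ) =>
      Part.some (if (g (pre x t.unpair.2) t.unpair.1).isSome then 0 else 1)) := by
    refine ((FC.of_computable hGt).comp hpre).of_eq ?_
    intro x t
    simp [G]
  have hV : FC (fun (x : Baire) (t : ℕ) =>
      Part.some ((g (pre x t.unpair.2) t.unpair.1).getD 0)) := by
    refine ((FC.of_computable hGv).comp hpre).of_eq ?_
    intro x t
    simp [G]
  have hid : FC (fun (_ : Baire) (n : ℕ) => Part.some n) :=
    FC.of_computable (f := fun n => n) Computable.id
  refine (hV.comp (hid.pair hT.rfind)).of_eq ?_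
  intro x n
  have hr : (Nat.rfind fun m => (fun m => decide (m = 0)) <$>
      (Part.some (if (g (pre x (Nat.pair n m).unpair.2) (Nat.pair n m).unpair.1).isSome
        then 0 else 1) : Part ℕ)) =
      Nat.rfind fun m => ((g (pre x m) n).isSome : Part Bool) := by
    congr 1
    funext m
    simp only [Nat.unpair_pair]
    cases (g (pre x m) n).isSome <;> simp
  rw [hr]
  unfold Nat.rfindOpt
  apply Part.ext
  intro a
  simp only [Part.bind_eq_bind, Part.map_eq_map, Part.map_some, Seq.seq, Part.bind_some,
    Part.mem_bind_iff, Part.mem_map_iff, Part.mem_some_iff]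
  constructor
  · rintro ⟨t, ⟨m, hm, rfl⟩, rfl⟩
    refine ⟨m, hm, ?_⟩
    have h2 := (Nat.mem_rfind.1 hm).1
    simp only [Part.coe_some, Part.mem_some_iff] at h2
    simp only [Nat.unpair_pair]
    obtain ⟨v, hv⟩ := Option.isSome_iff_exists.1 h2.symm
    simp [hv]
  · rintro ⟨m, hm, h⟩
    refine ⟨Nat.pair n m, ⟨m, hm, rfl⟩, ?_⟩
    simp only [Nat.unpair_pair]
    simp only [Part.mem_coe, Option.mem_def] at h
    simp [h]

end Pool.Agent.H70
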