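import Mathlib

namespace Pool.Agent.H70

/-- Infinite Ramsey theorem for pairs and two colours. -/
theorem ramsey_pairs (c : ℕ → ℕ → Bool) :
    ∃ (f : ℕ → ℕ) (j : Bool), (∀ m n, m < n → f m < f n) ∧
      ∀ m n, m < n → c (f m) (f n) = j := by
  classical
  let U : Ultrafilter ℕ := Filter.hyperfilter ℕ
  have hU : ∀ x : ℕ, ∃ i : Bool, {y | c x y = i} ∈ (U : Filter ℕ) := by
    intro x
    rcases Ultrafilter.mem_or_compl_mem U {y | c x y = true} with h | h
    · exact ⟨true, h⟩
    · refine ⟨false, Filter.mem_of_superset h ?_⟩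
      intro y hy
      simpa using hy
  choose i hi using hU
  obtain ⟨j, hj⟩ : ∃ j : Bool, {x | i x = j} ∈ (U : Filter ℕ) := by
    rcases Ultrafilter.mem_or_compl_mem U {x | i x = true} with h | h
    · exact ⟨true, h⟩
    · refine ⟨false, Filter.mem_of_superset h ?_⟩
      intro y hy
      simpa using hy
  obtain ⟨f, _, hf⟩ := exists_seq_of_forall_finset_exists (fun x => i x = j)
    (fun x y => x < y ∧ c x y = j) (by
      intro s hs
      have h1 : (⋂ x ∈ s, {y | c x y = j}) ∈ (U : Filter ℕ) := by
        rw [Filter.biInter_finset_mem]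
        intro x hx
        have := hi x
        rw [hs x hx] at this
        exact this
      have h2 : {y | ∀ x ∈ s, x < y} ∈ (U : Filter ℕ) := by
        have hfin : {y | ∀ x ∈ s, x < y}ᶜ.Finite := by
          refine Set.Finite.subset (Set.finite_Iic (s.sup id)) ?_
          intro y hy
          simp only [Set.mem_compl_iff, Set.mem_ofPred_eq, not_forall, not_lt] at hy
          obtain ⟨x, hx, hxy⟩ := hy
          exact le_trans hxy (Finset.le_sup (f := id) hx)
        have := Filter.compl_mem_hyperfilter_of_finite hfin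
        rwa [compl_compl] at this
      have h3 := Filter.inter_mem (Filter.inter_mem h1 h2) hj
      obtain ⟨y, hy⟩ := Filter.nonempty_of_mem h3
      refine ⟨y, hy.2, fun x hx => ⟨hy.1.2 x hx, ?_⟩⟩
      have := hy.1.1
      simp only [Set.mem_iInter] at this
      exact this x hx)
  exact ⟨f, j, fun m n h => (hf m n h).1, fun m n h => (hf m n h).2⟩

end Pool.Agent.H70
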