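import Pool.Agent.H70.Diagonal
import Pool.Agent.H70.Ramsey

namespace Pool.Agent.H70

open Encodable

theorem rfindOpt_eq {f : ℕ → Option ℕ} {y : ℕ} (h1 : ∃ l, (f l).isSome)
    (h2 : ∀ l v, f l = some v → v = y) : Nat.rfindOpt f = Part.some y := by
  rw [Part.eq_some_iff]
  have hdom : (Nat.rfindOpt f).Dom := by
    rw [Nat.rfindOpt_dom]
    obtain ⟨l, hl⟩ := h1
    obtain ⟨v, hv⟩ := Option.isSome_iff_exists.1 hl
    exact ⟨l, v, hv⟩
  obtain ⟨v, hv⟩ := Part.dom_iff_mem.1 hdom
  obtain ⟨l, hl⟩ := Nat.rfindOpt_spec hv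
  rw [← h2 l v hl]
  exact hv

/-- The maximal partial map with digits given by a functional. -/
def mapOf (Φ : Baire → ℕ →. ℕ) : Baire →. Baire :=
  fun z => ⟨∀ n, (Φ z n).Dom, fun h n => (Φ z n).get (h n)⟩

theorem mapOf_computable {Φ : Baire → ℕ →. ℕ} (h : FC Φ) : IsComputableMap (mapOf Φ) := by
  refine ⟨Φ, h, ?_⟩
  rintro x y ⟨hd, rfl⟩ n
  exact (Part.some_get (hd n)).symm

theorem mapOf_eq {Φ : Baire → ℕ →. ℕ} {z y : Baire} (h : ∀ n, Φ z n = Part.some (y n)) :
    mapOf Φ z = Part.some y := by
  rw [Part.eq_some_iff]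
  refine ⟨fun n => by rw [h n]; trivial, ?_⟩
  funext n
  simp [mapOf, h n]

/-- The colouring computed by `K` from `z = ⟨p, q⟩`. -/
def colS (z : Baire) (t : ℕ) : ℕ :=
  if t.unpair.1 < t.unpair.2 then
    if ∃ m < t.unpair.2 + 1, t.unpair.1 < m ∧ z (2 * (2 * m) + 1) = 1 then 0
    else if ∃ m < t.unpair.2 + 1, t.unpair.1 < m ∧ z (2 * (2 * m + 1) + 1) = 1 then 1
    else diag (pre (fun k => z (2 * k)) t.unpair.2) t.unpair.1
  else 0

/-- The version of `colS` acting on a prefix. -/
def colL (σ : List ℕ) (t : ℕ) : ℕ :=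
  if t.unpair.1 < t.unpair.2 then
    if ∃ m < t.unpair.2 + 1, t.unpair.1 < m ∧ σ.getD (2 * (2 * m) + 1) 0 = 1 then 0
    else if ∃ m < t.unpair.2 + 1, t.unpair.1 < m ∧ σ.getD (2 * (2 * m + 1) + 1) 0 = 1 then 1
    else diag ((List.range t.unpair.2).map fun k => σ.getD (2 * k) 0) t.unpair.1
  else 0

theorem pre_getD (x : Baire) {l k : ℕ} (h : k < l) : (pre x l).getD k 0 = x k := by
  rw [List.getD_eq_getElem?_getD, pre_getElem? x h]
  rfl

theorem colL_pre (z : Baire) (t l : ℕ) (h : 4 * t.unpair.2 + 4 ≤ l) :
    colL (pre z l) t = colS z t := by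
  unfold colL colS
  have e1 : (∃ m < t.unpair.2 + 1, t.unpair.1 < m ∧ (pre z l).getD (2 * (2 * m) + 1) 0 = 1) ↔
      ∃ m < t.unpair.2 + 1, t.unpair.1 < m ∧ z (2 * (2 * m) + 1) = 1 := by
    refine exists_congr fun m => and_congr_right fun hm => ?_
    rw [pre_getD z (by omega)]
  have e2 : (∃ m < t.unpair.2 + 1, t.unpair.1 < m ∧
      (pre z l).getD (2 * (2 * m + 1) + 1) 0 = 1) ↔
      ∃ m < t.unpair.2 + 1, t.unpair.1 < m ∧ z (2 * (2 * m + 1) + 1) = 1 := by
    refine exists_congr fun m => and_congr_right fun hm => ?_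
    rw [pre_getD z (by omega)]
  have e3 : ((List.range t.unpair.2).map fun k => (pre z l).getD (2 * k) 0) =
      pre (fun k => z (2 * k)) t.unpair.2 := by
    unfold pre
    refine List.map_congr_left fun k hk => ?_
    rw [List.mem_range] at hk
    have := pre_getD z (l := l) (k := 2 * k) (by omega)
    unfold pre at this
    exact this
  simp only [e1, e2, e3]

/-- Existence of a witness in a bounded range, on a prefix, is primitive recursive. -/
theorem bounded_primrec {α : Type*} [Primcodable α] {σ : α → List ℕ} {lo hi : α → ℕ}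
    {idx : ℕ → ℕ} (hσ : Primrec σ) (hlo : Primrec lo) (hhi : Primrec hi) (hidx : Primrec idx) :
    PrimrecPred (fun a => ∃ m < hi a, lo a ≤ m ∧ (σ a).getD (idx m) 0 = 1) := by
  have h0 : PrimrecRel (fun (m : ℕ) (y : List ℕ × ℕ) =>
      y.2 ≤ m ∧ y.1.getD (idx m) 0 = 1) := by
    refine PrimrecPred.and ?_ ?_
    · exact Primrec.nat_le.comp (Primrec.snd.comp Primrec.snd) Primrec.fst
    · refine Primrec.eq.comp ?_ (Primrec.const 1)
      exact (Primrec.list_getD 0).comp (Primrec.fst.comp Primrec.snd) (hidx.comp Primrec.fst)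
  have h1 := (h0.exists_mem_list).comp (f := fun a => List.range (hi a))
    (g := fun a => (σ a, lo a)) (Primrec.list_range.comp hhi) (Primrec.pair hσ hlo)
  refine h1.of_eq fun a => ?_
  simp

theorem twice_primrec : Primrec (fun m : ℕ => 2 * m) :=
  Primrec.nat_mul.comp (Primrec.const 2) Primrec.id

theorem colL_primrec : Primrec₂ colL := by
  have hσ : Primrec (fun y : List ℕ × ℕ => y.1) := Primrec.fst
  have ha : Primrec (fun y : List ℕ × ℕ => y.2.unpair.1) :=
    Primrec.fst.comp (Primrec.unpair.comp Primrec.snd)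
  have hb : Primrec (fun y : List ℕ × ℕ => y.2.unpair.2) :=
    Primrec.snd.comp (Primrec.unpair.comp Primrec.snd)
  refine Primrec.ite (Primrec.nat_lt.comp ha hb) ?_ (Primrec.const 0)
  refine Primrec.ite ?_ (Primrec.const 0) ?_
  · exact bounded_primrec (idx := fun m => 2 * (2 * m) + 1) hσ (Primrec.succ.comp ha)
      (Primrec.succ.comp hb)
      (Primrec.succ.comp (twice_primrec.comp (twice_primrec.comp Primrec.id)))
  refine Primrec.ite ?_ (Primrec.const 1) ?_
  · exact bounded_primrec (idx := fun m => 2 * (2 * m + 1) + 1) hσ (Primrec.succ.comp ha)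
      (Primrec.succ.comp hb)
      (Primrec.succ.comp (twice_primrec.comp (Primrec.succ.comp (twice_primrec.comp Primrec.id))))
  · refine diag_primrec.comp ?_ ha
    refine Primrec.list_map (Primrec.list_range.comp hb) ?_
    exact (Primrec.list_getD 0).comp (hσ.comp Primrec.fst) (twice_primrec.comp Primrec.snd)

/-- The search function computing `K`. -/
def gK (σ : List ℕ) (t : ℕ) : Option ℕ :=
  if 4 * t.unpair.2 + 4 ≤ σ.length then some (colL σ t) else none

theorem gK_primrec : Primrec₂ gK := by
  have hb : Primrec (fun y : List ℕ × ℕ => y.2.unpair.2) :=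
    Primrec.snd.comp (Primrec.unpair.comp Primrec.snd)
  refine Primrec.ite (Primrec.nat_le.comp ?_ (Primrec.list_length.comp Primrec.fst))
    (Primrec.option_some.comp colL_primrec) (Primrec.const none)
  exact Primrec.nat_add.comp (Primrec.nat_mul.comp (Primrec.const 4) hb) (Primrec.const 4)

theorem gK_search (z : Baire) (t : ℕ) :
    (Nat.rfindOpt fun l => gK (pre z l) t) = Part.some (colS z t) := by
  apply rfindOpt_eq
  · refine ⟨4 * t.unpair.2 + 4, ?_⟩
    simp [gK]
  · intro l v hv
    unfold gK at hv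
    rw [pre_length] at hv
    split_ifs at hv with h
    rw [colL_pre z t l h] at hv
    exact (Option.some.inj hv).symm

/-- The answer for the second component, from `x = ⟨p, q⟩` and two elements `a < b` (coded by
`t`) of the homogeneous set. -/
def ansS (x : Baire) (t : ℕ) : ℕ :=
  if ∃ m < t.unpair.1 + 1, 0 ≤ m ∧ x (2 * (2 * m) + 1) = 1 then 1
  else if ∃ m < t.unpair.1 + 1, 0 ≤ m ∧ x (2 * (2 * m + 1) + 1) = 1 then 0
  else 1 - colS x t

/-- The version of `ansS` acting on a prefix. -/
def ansL (σ : List ℕ) (t : ℕ) : ℕ :=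
  if ∃ m < t.unpair.1 + 1, 0 ≤ m ∧ σ.getD (2 * (2 * m) + 1) 0 = 1 then 1
  else if ∃ m < t.unpair.1 + 1, 0 ≤ m ∧ σ.getD (2 * (2 * m + 1) + 1) 0 = 1 then 0
  else 1 - colL σ t

theorem ansL_pre (x : Baire) (t l : ℕ) (hab : t.unpair.1 < t.unpair.2)
    (h : 4 * t.unpair.2 + 4 ≤ l) : ansL (pre x l) t = ansS x t := by
  unfold ansL ansS
  have e1 : (∃ m < t.unpair.1 + 1, 0 ≤ m ∧ (pre x l).getD (2 * (2 * m) + 1) 0 = 1) ↔
      ∃ m < t.unpair.1 + 1, 0 ≤ m ∧ x (2 * (2 * m) + 1) = 1 := by
    refine exists_congr fun m => and_congr_right fun hm => ?_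
    rw [pre_getD x (by omega)]
  have e2 : (∃ m < t.unpair.1 + 1, 0 ≤ m ∧
      (pre x l).getD (2 * (2 * m + 1) + 1) 0 = 1) ↔
      ∃ m < t.unpair.1 + 1, 0 ≤ m ∧ x (2 * (2 * m + 1) + 1) = 1 := by
    refine exists_congr fun m => and_congr_right fun hm => ?_
    rw [pre_getD x (by omega)]
  simp only [e1, e2, colL_pre x t l h]

theorem ansL_primrec : Primrec₂ ansL := by
  have hσ : Primrec (fun y : List ℕ × ℕ => y.1) := Primrec.fst
  have ha : Primrec (fun y : List ℕ × ℕ => y.2.unpair.1) :=
    Primrec.fst.comp (Primrec.unpair.comp Primrec.snd)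
  refine Primrec.ite ?_ (Primrec.const 1) ?_
  · exact bounded_primrec (idx := fun m => 2 * (2 * m) + 1) hσ (Primrec.const 0)
      (Primrec.succ.comp ha)
      (Primrec.succ.comp (twice_primrec.comp (twice_primrec.comp Primrec.id)))
  refine Primrec.ite ?_ (Primrec.const 0) ?_
  · exact bounded_primrec (idx := fun m => 2 * (2 * m + 1) + 1) hσ (Primrec.const 0)
      (Primrec.succ.comp ha)
      (Primrec.succ.comp (twice_primrec.comp (Primrec.succ.comp (twice_primrec.comp Primrec.id))))
  · exact Primrec.nat_sub.comp (Primrec.const 1) colL_primrec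

/-- The search function computing `H`, from prefixes of `⟨⟨p, q⟩, h⟩`. -/
def gH (σ : List ℕ) (n : ℕ) : Option ℕ :=
  if n % 2 = 0 then
    if n + 1 < σ.length then some (σ.getD (n + 1) 0) else none
  else if n = 1 then
    if (σ.length.unpair.1.unpair.1 < σ.length.unpair.1.unpair.2 ∧
        8 * σ.length.unpair.1.unpair.2 + 8 ≤ σ.length ∧
        σ.getD (2 * σ.length.unpair.1.unpair.1 + 1) 0 = 1 ∧
        σ.getD (2 * σ.length.unpair.1.unpair.2 + 1) 0 = 1) then
      some (ansL ((List.range (4 * σ.length.unpair.1.unpair.2 + 4)).map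
        fun k => σ.getD (2 * k) 0) σ.length.unpair.1)
    else none
  else some 0

theorem gH_primrec : Primrec₂ gH := by
  have hσ : Primrec (fun y : List ℕ × ℕ => y.1) := Primrec.fst
  have hn : Primrec (fun y : List ℕ × ℕ => y.2) := Primrec.snd
  have hlen : Primrec (fun y : List ℕ × ℕ => y.1.length) := Primrec.list_length.comp hσ
  have ht : Primrec (fun y : List ℕ × ℕ => y.1.length.unpair.1) :=
    Primrec.fst.comp (Primrec.unpair.comp hlen)
  have ha : Primrec (fun y : List ℕ × ℕ => y.1.length.unpair.1.unpair.1) :=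
    Primrec.fst.comp (Primrec.unpair.comp ht)
  have hb : Primrec (fun y : List ℕ × ℕ => y.1.length.unpair.1.unpair.2) :=
    Primrec.snd.comp (Primrec.unpair.comp ht)
  refine Primrec.ite ?_ ?_ ?_
  · exact Primrec.eq.comp (Primrec.nat_mod.comp hn (Primrec.const 2)) (Primrec.const 0)
  · refine Primrec.ite (Primrec.nat_lt.comp (Primrec.succ.comp hn) hlen) ?_ (Primrec.const none)
    exact Primrec.option_some.comp ((Primrec.list_getD 0).comp hσ (Primrec.succ.comp hn))
  refine Primrec.ite (Primrec.eq.comp hn (Primrec.const 1)) ?_ (Primrec.const (some 0))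
  refine Primrec.ite ?_ ?_ (Primrec.const none)
  · refine PrimrecPred.and (Primrec.nat_lt.comp ha hb) ?_
    refine PrimrecPred.and ?_ ?_
    · exact Primrec.nat_le.comp (Primrec.nat_add.comp
        (Primrec.nat_mul.comp (Primrec.const 8) hb) (Primrec.const 8)) hlen
    refine PrimrecPred.and ?_ ?_
    · exact Primrec.eq.comp ((Primrec.list_getD 0).comp hσ
        (Primrec.succ.comp (twice_primrec.comp ha))) (Primrec.const 1)
    · exact Primrec.eq.comp ((Primrec.list_getD 0).comp hσ
        (Primrec.succ.comp (twice_primrec.comp hb))) (Primrec.const 1)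
  · refine Primrec.option_some.comp (ansL_primrec.comp ?_ ht)
    refine Primrec.list_map (Primrec.list_range.comp (Primrec.nat_add.comp
      (Primrec.nat_mul.comp (Primrec.const 4) hb) (Primrec.const 4))) ?_
    exact (Primrec.list_getD 0).comp (hσ.comp Primrec.fst) (twice_primrec.comp Primrec.snd)

@[simp] theorem join_even (x y : Baire) (n : ℕ) : join x y (2 * n) = x n := by
  simp [join]

@[simp] theorem join_odd (x y : Baire) (n : ℕ) : join x y (2 * n + 1) = y n := by
  have h1 : (2 * n + 1) % 2 = 1 := by omega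
  have h2 : (2 * n + 1) / 2 = n := by omega
  simp [join, h1, h2]

/-- The digits of `H` on `⟨x, h⟩`. -/
theorem gH_search (x h : Baire) (y : ℕ) (hinf : {n | h n = 1}.Infinite)
    (hy : ∀ a b, a < b → h a = 1 → h b = 1 → ansS x (Nat.pair a b) = y) (n : ℕ) :
    (Nat.rfindOpt fun l => gH (pre (join x h) l) n) = Part.some (join h (bitName y) n) := by
  rcases Nat.even_or_odd' n with ⟨k, rfl | rfl⟩
  · -- even digits
    apply rfindOpt_eq
    · refine ⟨2 * k + 2, ?_⟩
      simp [gH]
    · intro l v hv
      unfold gH at hv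
      rw [if_pos (by omega), pre_length] at hv
      split_ifs at hv with h1
      rw [pre_getD _ h1, join_odd] at hv
      rw [join_even]
      exact (Option.some.inj hv).symm
  · rw [join_odd]
    rcases Nat.eq_zero_or_pos k with rfl | hk
    · -- the digit carrying the answer
      have e0 : bitName y 0 = y := by simp [bitName]
      rw [e0]
      apply rfindOpt_eq
      · obtain ⟨a, ha⟩ := hinf.nonempty
        obtain ⟨b, hb, hab⟩ := hinf.exists_gt a
        refine ⟨Nat.pair (Nat.pair a b) (8 * b + 8), ?_⟩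
        have hle : 8 * b + 8 ≤ Nat.pair (Nat.pair a b) (8 * b + 8) := Nat.right_le_pair _ _
        unfold gH
        rw [if_neg (by omega), if_pos (by omega), if_pos]
        · simp
        · rw [pre_length]
          simp only [Nat.unpair_pair]
          refine ⟨hab, hle, ?_, ?_⟩
          · rw [pre_getD _ (by omega), join_odd]; exact ha
          · rw [pre_getD _ (by omega), join_odd]; exact hb
      · intro l v hv
        unfold gH at hv
        rw [if_neg (by omega), if_pos (by omega), pre_length] at hv
        split_ifs at hv with h1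
        obtain ⟨h1, h2, h3, h4⟩ := h1
        rw [pre_getD _ (by omega), join_odd] at h3
        rw [pre_getD _ (by omega), join_odd] at h4
        have e : ((List.range (4 * l.unpair.1.unpair.2 + 4)).map
            fun k => (pre (join x h) l).getD (2 * k) 0) =
            pre x (4 * l.unpair.1.unpair.2 + 4) := by
          unfold pre
          refine List.map_congr_left fun k hk => ?_
          rw [List.mem_range] at hk
          have := pre_getD (join x h) (l := l) (k := 2 * k) (by omega)
          unfold pre at this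
          rw [this, join_even]
        rw [e, ansL_pre x _ _ h1 le_rfl] at hv
        have h5 := hy _ _ h1 h3 h4
        rw [Nat.pair_unpair] at h5
        rw [← h5]
        exact (Option.some.inj hv).symm
    · have e0 : bitName y k = 0 := by
        unfold bitName
        rw [if_neg (by omega)]
      rw [e0]
      apply rfindOpt_eq
      · refine ⟨0, ?_⟩
        unfold gH
        rw [if_neg (by omega), if_neg (by omega)]
        rfl
      · intro l v hv
        unfold gH at hv
        rw [if_neg (by omega), if_neg (by omega)] at hv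
        exact (Option.some.inj hv).symm

theorem colS_cantor (z : Baire) : colS z ∈ cantor := by
  intro t
  unfold colS diag
  split_ifs <;> simp

/-- `RT²₂` is total on names of colourings. -/
theorem RT22_nonempty {p : Baire} (hp : p ∈ cantor) : (RT22 p).Nonempty := by
  classical
  obtain ⟨f, j, hf, hc⟩ := ramsey_pairs (fun x y => decide (p (Nat.pair x y) = 1))
  have hmono : StrictMono f := fun m n h => hf m n h
  refine ⟨fun n => if n ∈ Set.range f then 1 else 0, hp, ?_, ?_, ?_⟩
  · intro n
    by_cases h : n ∈ Set.range f <;> simp [h]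
  · refine (Set.infinite_range_of_injective hmono.injective).mono ?_
    intro n hn
    change (if n ∈ Set.range f then 1 else 0) = 1
    rw [if_pos hn]
  · refine ⟨if j then 1 else 0, ?_⟩
    intro x y hxy hx hy
    have hx' : x ∈ Set.range f := by
      by_contra h
      simp [h] at hx
    have hy' : y ∈ Set.range f := by
      by_contra h
      simp [h] at hy
    obtain ⟨m, rfl⟩ := hx'
    obtain ⟨n, rfl⟩ := hy'
    have hmn : m < n := hmono.lt_iff_lt.1 hxy
    have h1 := hc m n hmn
    cases j with
    | true =>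
      have h2 := of_decide_eq_true h1
      simpa using h2
    | false =>
      have h2 := of_decide_eq_false h1
      rcases hp (Nat.pair (f m) (f n)) with h3 | h3
      · simpa using h3
      · exact absurd h3 h2

/-- Restricting a computed set to a final segment keeps it computed. -/
theorem PrefixComputes.restrict {p q : Baire} (h : PrefixComputes p q) (m : ℕ) :
    PrefixComputes p (fun n => if n < m then 0 else q n) := by
  obtain ⟨φ, hφ, hq⟩ := h
  refine ⟨fun l n => if n < m then Part.some 0 else φ l n, ?_, ?_⟩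
  · have h1 : Computable (fun y : List ℕ × ℕ => decide (y.2 < m)) :=
      ((Primrec.nat_lt.comp Primrec.snd (Primrec.const m)).decide).to_comp
    have h2 := Partrec.cond h1 ((Computable.const 0).partrec (α := List ℕ × ℕ)) hφ
    refine h2.of_eq fun y => ?_
    by_cases h : y.2 < m <;> simp [h]
  · intro n
    by_cases h : n < m
    · simp [h]
    · simpa [h] using hq n

/-- No infinite homogeneous set of the colouring `colS ⟨p, q⟩` is computable from `p`, provided
`q` has only finitely many ones. -/
theorem not_reducible {p q h : Baire} {M : ℕ} (hM : ∀ k, q k = 1 → k < 2 * M)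
    (hinf : {n | h n = 1}.Infinite) {j : ℕ}
    (hj : ∀ x y, x < y → h x = 1 → h y = 1 → colS (join p q) (Nat.pair x y) = j) :
    ¬ TuringReducible (h : ℕ →. ℕ) (p : ℕ →. ℕ) := by
  intro hred
  have hpc := (prefixComputes_of_reducible hred).restrict M
  have hinf' : {n | (fun n => if n < M then 0 else h n) n = 1}.Infinite := by
    have hsub : {n | h n = 1} \ Set.Iio M ⊆
        {n | (fun n => if n < M then 0 else h n) n = 1} := by
      intro n hn
      have h1 : ¬ n < M := fun hlt => hn.2 hlt
      have h2 : h n = 1 := hn.1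
      change (if n < M then 0 else h n) = 1
      rw [if_neg h1, h2]
    exact (hinf.sdiff (Set.finite_Iio M)).mono hsub
  obtain ⟨s₀, hs₀⟩ := diag_diagonalizes hpc hinf'
  obtain ⟨s, hs, hgt⟩ := hinf.exists_gt s₀
  obtain ⟨a, b, ha, hb, hqa, hqb, hda, hdb⟩ := hs₀ s hgt.le
  have hMa : ¬ a < M ∧ h a = 1 := by
    by_cases h1 : a < M
    · simp [h1] at hqa
    · simpa [h1] using hqa
  have hMb : ¬ b < M ∧ h b = 1 := by
    by_cases h1 : b < M
    · simp [h1] at hqb
    · simpa [h1] using hqb
  have hcol : ∀ c, c < s → ¬ c < M → colS (join p q) (Nat.pair c s) = diag (pre p s) c := by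
    intro c hc hcM
    unfold colS
    simp only [Nat.unpair_pair, join_even, join_odd]
    rw [if_pos hc, if_neg, if_neg]
    · rintro ⟨m, _, hm, hq⟩
      have := hM _ hq
      omega
    · rintro ⟨m, _, hm, hq⟩
      have := hM _ hq
      omega
  have h1 := hj a s ha hMa.2 hs
  have h2 := hj b s hb hMb.2 hs
  rw [hcol a ha hMa.1, hda] at h1
  rw [hcol b hb hMb.1, hdb] at h2
  omega

/-- The answer is a correct output of `LLPO`. -/
theorem ansS_correct {p q h : Baire} (hq : q ∈ cantor)
    (huniq : ∀ m n, q m = 1 → q n = 1 → m = n)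
    (hinf : {n | h n = 1}.Infinite) {j : ℕ}
    (hj : ∀ x y, x < y → h x = 1 → h y = 1 → colS (join p q) (Nat.pair x y) = j)
    {a b : ℕ} (hab : a < b) (ha : h a = 1) (hb : h b = 1) :
    (ansS (join p q) (Nat.pair a b) = 0 ∨ ansS (join p q) (Nat.pair a b) = 1) ∧
      ∀ n, q (2 * n + ansS (join p q) (Nat.pair a b)) = 0 := by
  have h01 : ansS (join p q) (Nat.pair a b) = 0 ∨ ansS (join p q) (Nat.pair a b) = 1 := by
    unfold ansS
    rcases colS_cantor (join p q) (Nat.pair a b) with h1 | h1 <;> rw [h1] <;> split_ifs <;> simp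
  refine ⟨h01, ?_⟩
  intro n
  by_contra hne
  have hone : q (2 * n + ansS (join p q) (Nat.pair a b)) = 1 :=
    (hq _).resolve_left hne
  by_cases hna : n ≤ a
  · -- the one is seen before `a`
    rcases h01 with h0 | h1
    · rw [h0] at hone
      have : ansS (join p q) (Nat.pair a b) = 1 := by
        unfold ansS
        rw [if_pos]
        simp only [Nat.unpair_pair, join_odd]
        exact ⟨n, by omega, Nat.zero_le _, by simpa using hone⟩
      omega
    · rw [h1] at hone
      have : ansS (join p q) (Nat.pair a b) = 0 := by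
        unfold ansS
        simp only [Nat.unpair_pair, join_odd]
        rw [if_neg, if_pos]
        · exact ⟨n, by omega, Nat.zero_le _, hone⟩
        · rintro ⟨m, _, _, hm⟩
          have := huniq _ _ hm hone
          omega
      omega
  · -- the one is after `a`: it decides the colour of the set
    have hna' : a < n := not_le.1 hna
    obtain ⟨y, hy, hgt⟩ := hinf.exists_gt n
    have hay : a < y := lt_trans hna' hgt
    have hc1 : ansS (join p q) (Nat.pair a b) = 1 - j := by
      unfold ansS
      rw [hj a b hab ha hb]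
      simp only [Nat.unpair_pair, join_odd]
      rw [if_neg, if_neg]
      · rintro ⟨m, hm1, _, hm⟩
        have := huniq _ _ hm hone
        rcases h01 with h0 | h1 <;> omega
      · rintro ⟨m, hm1, _, hm⟩
        have := huniq _ _ hm hone
        rcases h01 with h0 | h1 <;> omega
    have hc2 := hj a y hay ha hy
    unfold colS at hc2
    simp only [Nat.unpair_pair, join_odd] at hc2
    rw [if_pos hay] at hc2
    rcases h01 with h0 | h1
    · rw [h0] at hone
      rw [if_pos ⟨n, by omega, hna', by simpa using hone⟩] at hc2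
      omega
    · rw [h1] at hone
      rw [if_neg, if_pos ⟨n, by omega, hna', hone⟩] at hc2
      · omega
      · rintro ⟨m, _, _, hm⟩
        have := huniq _ _ hm hone
        omega

/-- The reduction. -/
theorem reduction : WeihrauchReducible (product NON LLPO) RT22 := by
  refine ⟨mapOf fun x n => Nat.rfindOpt fun l => gH (pre x l) n,
    mapOf fun x n => Nat.rfindOpt fun l => gK (pre x l) n,
    mapOf_computable (FC.search gH_primrec.to_comp),
    mapOf_computable (FC.search gK_primrec.to_comp), ?_⟩
  intro G hG w hw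
  obtain ⟨v, p, q, r, r', hwe, _, hr, hr'⟩ := hw
  subst hwe
  obtain ⟨hp, _, _⟩ := hr
  obtain ⟨hq, huniq, _⟩ := hr'
  have hK : mapOf (fun x n => Nat.rfindOpt fun l => gK (pre x l) n) (join p q) =
      Part.some (colS (join p q)) := mapOf_eq (gK_search (join p q))
  obtain ⟨h, hGh, hsol⟩ := hG (colS (join p q)) (RT22_nonempty (colS_cantor _))
  obtain ⟨_, hh, hinf, j, hj⟩ := hsol
  obtain ⟨a, ha⟩ := hinf.nonempty
  obtain ⟨b, hb, hab⟩ := hinf.exists_gt a
  have hcorr := ansS_correct hq huniq hinf hj hab ha hb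
  set y := ansS (join p q) (Nat.pair a b) with hy
  have hconst : ∀ a' b', a' < b' → h a' = 1 → h b' = 1 →
      ansS (join p q) (Nat.pair a' b') = y := by
    intro a' b' hab' ha' hb'
    have hcorr' := ansS_correct hq huniq hinf hj hab' ha' hb'
    by_cases hone : ∃ k, q k = 1
    · obtain ⟨k, hk⟩ := hone
      have key : ∀ t, (t = 0 ∨ t = 1) → (∀ n, q (2 * n + t) = 0) → t = (k + 1) % 2 := by
        intro t ht hzero
        have h1 := hzero (k / 2)
        by_contra hne
        have h2 : 2 * (k / 2) + t = k := by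
          rcases ht with rfl | rfl <;> omega
        rw [h2, hk] at h1
        exact absurd h1 one_ne_zero
      rw [key _ hcorr'.1 hcorr'.2, key _ hcorr.1 hcorr.2]
    · have key : ∀ c d, c < d → h c = 1 → h d = 1 →
          ansS (join p q) (Nat.pair c d) = 1 - j := by
        intro c d hcd hc hd
        unfold ansS
        rw [hj c d hcd hc hd]
        simp only [Nat.unpair_pair, join_odd]
        rw [if_neg, if_neg]
        · rintro ⟨m, _, _, hm⟩
          exact hone ⟨_, hm⟩
        · rintro ⟨m, _, _, hm⟩
          exact hone ⟨_, hm⟩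
      rw [key a' b' hab' ha' hb', hy, key a b hab ha hb]
  have hH : mapOf (fun x n => Nat.rfindOpt fun l => gH (pre x l) n) (join (join p q) h) =
      Part.some (join h (bitName y)) := mapOf_eq (gH_search (join p q) h y hinf hconst)
  refine ⟨join h (bitName y), ?_, ?_⟩
  · refine Part.mem_bind (a := colS (join p q)) ?_ ?_
    · exact hK ▸ Part.mem_some _
    · refine Part.mem_bind hGh ?_
      exact hH ▸ Part.mem_some _
  · refine ⟨p, q, h, bitName y, rfl, rfl, ⟨hp, hh, ?_⟩, ⟨hq, huniq, y, hcorr.1, hcorr.2, rfl⟩⟩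
    obtain ⟨M, hM⟩ : ∃ M, ∀ k, q k = 1 → k < 2 * M := by
      by_cases hone : ∃ k, q k = 1
      · obtain ⟨k, hk⟩ := hone
        refine ⟨k + 1, fun m hm => ?_⟩
        rw [huniq m k hm hk]
        omega
      · exact ⟨0, fun k hk => absurd ⟨k, hk⟩ hone⟩
    exact not_reducible hM hinf hj

end Pool.Agent.H70
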