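import Pool.Agent.H70.Functional

namespace Pool.Agent.H70

open Encodable

/-- Codes of oracle algorithms: formal terms built from the generators and closure operations of
the relativised partial recursive functions (the same as in Mathlib's `Nat.RecursiveIn`). -/
inductive OCode : Type
  | zero : OCode
  | succ : OCode
  | left : OCode
  | right : OCode
  | oracle : OCode
  | pair (a b : OCode) : OCode
  | comp (a b : OCode) : OCode
  | prec (a b : OCode) : OCode
  | rfind (a : OCode) : OCode

/-- The partial function computed by an oracle code with oracle `x`: the constant zero, the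
successor, the two projections of Cantor pairing, the oracle itself, pairing, composition,
primitive recursion and unbounded search. -/
def OCode.eval (x : ℕ →. ℕ) : OCode → ℕ →. ℕ
  | OCode.zero => fun _ => Part.some 0
  | OCode.succ => fun n => Part.some (Nat.succ n)
  | OCode.left => fun n => Part.some (Nat.unpair n).1
  | OCode.right => fun n => Part.some (Nat.unpair n).2
  | OCode.oracle => x
  | OCode.pair a b => fun n => Nat.pair <$> a.eval x n <*> b.eval x n
  | OCode.comp a b => fun n => b.eval x n >>= a.eval x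
  | OCode.prec a b => fun p =>
      (Nat.unpair p).2.rec (a.eval x (Nat.unpair p).1) fun y IH => do
        let i ← IH
        b.eval x (Nat.pair (Nat.unpair p).1 (Nat.pair y i))
  | OCode.rfind a => fun p =>
      Nat.rfind fun n => (fun m => decide (m = 0)) <$> a.eval x (Nat.pair p n)

/-- Sanity check: oracle codes compute exactly the functions recursive in the oracle, in the sense
of Mathlib. -/
theorem OCode.recursiveIn_iff (x f : ℕ →. ℕ) :
    Nat.RecursiveIn {x} f ↔ ∃ c : OCode, c.eval x = f := by
  constructor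
  · intro h
    induction h with
    | zero => exact ⟨OCode.zero, rfl⟩
    | succ => exact ⟨OCode.succ, rfl⟩
    | left => exact ⟨OCode.left, rfl⟩
    | right => exact ⟨OCode.right, rfl⟩
    | oracle g hg => exact ⟨OCode.oracle, (Set.mem_singleton_iff.mp hg).symm⟩
    | pair _ _ ih₁ ih₂ =>
      obtain ⟨a, rfl⟩ := ih₁
      obtain ⟨b, rfl⟩ := ih₂
      exact ⟨OCode.pair a b, rfl⟩
    | comp _ _ ih₁ ih₂ =>
      obtain ⟨a, rfl⟩ := ih₁
      obtain ⟨b, rfl⟩ := ih₂
      exact ⟨OCode.comp a b, rfl⟩
    | prec _ _ ih₁ ih₂ =>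
      obtain ⟨a, rfl⟩ := ih₁
      obtain ⟨b, rfl⟩ := ih₂
      exact ⟨OCode.prec a b, rfl⟩
    | rfind _ ih =>
      obtain ⟨a, rfl⟩ := ih
      exact ⟨OCode.rfind a, rfl⟩
  · rintro ⟨c, rfl⟩
    induction c with
    | zero => exact Nat.RecursiveIn.zero
    | succ => exact Nat.RecursiveIn.succ
    | left => exact Nat.RecursiveIn.left
    | right => exact Nat.RecursiveIn.right
    | oracle => exact Nat.RecursiveIn.oracle _ rfl
    | pair a b iha ihb => exact Nat.RecursiveIn.pair iha ihb
    | comp a b iha ihb => exact Nat.RecursiveIn.comp iha ihb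
    | prec a b iha ihb => exact Nat.RecursiveIn.prec iha ihb
    | rfind a iha => exact Nat.RecursiveIn.rfind iha

/-- A finite list as a partial oracle. -/
def listOracle (l : List ℕ) : ℕ →. ℕ := fun k => (l[k]? : Part ℕ)

theorem OCode.mem_eval_comp {x : ℕ →. ℕ} {a b : OCode} {n v : ℕ} :
    v ∈ (OCode.comp a b).eval x n ↔ ∃ u ∈ b.eval x n, v ∈ a.eval x u :=
  Part.mem_bind_iff

theorem OCode.mem_eval_rfind {x : ℕ →. ℕ} {a : OCode} {n v : ℕ} :
    v ∈ (OCode.rfind a).eval x n ↔
      (∃ w ∈ a.eval x (Nat.pair n v), w = 0) ∧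
        ∀ m, m < v → ∃ w ∈ a.eval x (Nat.pair n m), w ≠ 0 := by
  refine (Nat.mem_rfind (p := fun m => (fun k => decide (k = 0)) <$> a.eval x (Nat.pair n m))).trans ?_
  simp only [Part.map_eq_map, Part.mem_map_iff, decide_eq_true_eq, decide_eq_false_iff_not, ne_eq]

theorem OCode.eval_mono {x y : ℕ →. ℕ} (h : ∀ k v, v ∈ x k → v ∈ y k) (c : OCode) :
    ∀ n v, v ∈ c.eval x n → v ∈ c.eval y n := by
  induction c with
  | zero => intro n v hv; exact hv
  | succ => intro n v hv; exact hv
  | left => intro n v hv; exact hv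
  | right => intro n v hv; exact hv
  | oracle => intro n v hv; exact h n v hv
  | pair a b iha ihb =>
    intro n v hv
    simp only [OCode.eval, Seq.seq, Part.map_eq_map, Part.bind_map, Part.mem_bind_iff,
      Part.mem_map_iff] at hv ⊢
    obtain ⟨u, hu, w, hw, e⟩ := hv
    exact ⟨u, iha n u hu, w, ihb n w hw, e⟩
  | comp a b iha ihb =>
    intro n v hv
    rw [OCode.mem_eval_comp] at hv ⊢
    obtain ⟨u, hu, hv⟩ := hv
    exact ⟨u, ihb n u hu, iha u v hv⟩
  | prec a b iha ihb =>
    intro n v hv
    simp only [OCode.eval] at hv ⊢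
    generalize (Nat.unpair n).1 = s at *
    generalize (Nat.unpair n).2 = t at *
    induction t generalizing v with
    | zero => exact iha s v hv
    | succ t ih =>
      simp only [Part.bind_eq_bind, Part.mem_bind_iff] at hv ⊢
      obtain ⟨u, hu, hv⟩ := hv
      exact ⟨u, ih u hu, ihb _ v hv⟩
  | rfind a iha =>
    intro n v hv
    rw [OCode.mem_eval_rfind] at hv ⊢
    obtain ⟨⟨u, hu, e⟩, hv⟩ := hv
    refine ⟨⟨u, iha _ u hu, e⟩, ?_⟩
    intro m hm
    obtain ⟨w, hw, e'⟩ := hv m hm
    exact ⟨w, iha _ w hw, e'⟩

theorem listOracle_pre_mono (x : Baire) {l m : ℕ} (h : l ≤ m) (k v : ℕ)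
    (hv : v ∈ listOracle (pre x l) k) : v ∈ listOracle (pre x m) k := by
  simp only [listOracle, Part.mem_coe, Option.mem_def] at hv ⊢
  by_cases hk : k < l
  · rw [pre_getElem? x hk] at hv
    rw [pre_getElem? x (lt_of_lt_of_le hk h)]
    exact hv
  · rw [pre_getElem?_ge x (not_lt.1 hk)] at hv
    exact absurd hv (by simp)

theorem listOracle_pre_le (x : Baire) (l : ℕ) (k v : ℕ)
    (hv : v ∈ listOracle (pre x l) k) : v ∈ (x : ℕ →. ℕ) k := by
  simp only [listOracle, Part.mem_coe, Option.mem_def] at hv
  by_cases hk : k < l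
  · rw [pre_getElem? x hk] at hv
    simp only [PFun.coe_val, Part.mem_some_iff]
    exact (Option.some.inj hv).symm
  · rw [pre_getElem?_ge x (not_lt.1 hk)] at hv
    exact absurd hv (by simp)

theorem eval_pre_mono (x : Baire) (c : OCode) {l m : ℕ} (h : l ≤ m) {n v : ℕ}
    (hv : v ∈ c.eval (listOracle (pre x l)) n) : v ∈ c.eval (listOracle (pre x m)) n :=
  OCode.eval_mono (listOracle_pre_mono x h) c n v hv

/-- The use principle: a convergent computation uses only a finite prefix of the oracle. -/
theorem eval_compact (x : Baire) (c : OCode) :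
    ∀ n v, v ∈ c.eval (x : ℕ →. ℕ) n → ∃ l, v ∈ c.eval (listOracle (pre x l)) n := by
  induction c with
  | zero => intro n v hv; exact ⟨0, hv⟩
  | succ => intro n v hv; exact ⟨0, hv⟩
  | left => intro n v hv; exact ⟨0, hv⟩
  | right => intro n v hv; exact ⟨0, hv⟩
  | oracle =>
    intro n v hv
    refine ⟨n + 1, ?_⟩
    simp only [OCode.eval, listOracle, PFun.coe_val, Part.mem_some_iff, Part.mem_coe,
      Option.mem_def] at hv ⊢
    rw [pre_getElem? x (Nat.lt_succ_self n), hv]
  | pair a b iha ihb =>
    intro n v hv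
    simp only [OCode.eval, Seq.seq, Part.map_eq_map, Part.bind_map, Part.mem_bind_iff,
      Part.mem_map_iff] at hv ⊢
    obtain ⟨u, hu, w, hw, e⟩ := hv
    obtain ⟨l, hl⟩ := iha n u hu
    obtain ⟨m, hm⟩ := ihb n w hw
    exact ⟨max l m, u, eval_pre_mono x a (le_max_left _ _) hl, w,
      eval_pre_mono x b (le_max_right _ _) hm, e⟩
  | comp a b iha ihb =>
    intro n v hv
    rw [OCode.mem_eval_comp] at hv
    obtain ⟨u, hu, hv⟩ := hv
    obtain ⟨l, hl⟩ := ihb n u hu
    obtain ⟨m, hm⟩ := iha u v hv
    exact ⟨max l m, OCode.mem_eval_comp.2 ⟨u, eval_pre_mono x b (le_max_left _ _) hl,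
      eval_pre_mono x a (le_max_right _ _) hm⟩⟩
  | prec a b iha ihb =>
    intro n v hv
    simp only [OCode.eval] at hv ⊢
    generalize (Nat.unpair n).1 = s at *
    generalize (Nat.unpair n).2 = t at *
    induction t generalizing v with
    | zero => exact iha s v hv
    | succ t ih =>
      simp only [Part.bind_eq_bind, Part.mem_bind_iff] at hv ⊢
      obtain ⟨u, hu, hv⟩ := hv
      obtain ⟨l, hl⟩ := ih u hu
      obtain ⟨m, hm⟩ := ihb _ v hv
      refine ⟨max l m, u, ?_, eval_pre_mono x b (le_max_right _ _) hm⟩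
      have := OCode.eval_mono (listOracle_pre_mono x (le_max_left l m)) (OCode.prec a b)
        (Nat.pair s t) u
      simp only [OCode.eval, Nat.unpair_pair] at this
      exact this hl
  | rfind a iha =>
    intro n v hv
    rw [OCode.mem_eval_rfind] at hv
    obtain ⟨⟨u, hu, e⟩, hv⟩ := hv
    have hv' : ∀ m, m < v → ∃ l w, w ∈ a.eval (listOracle (pre x l)) (Nat.pair n m) ∧
        w ≠ 0 := by
      intro m hm
      obtain ⟨w, hw, e'⟩ := hv m hm
      obtain ⟨l, hl⟩ := iha _ w hw
      exact ⟨l, w, hl, e'⟩
    choose! L hL using hv'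
    obtain ⟨l, hl⟩ := iha _ u hu
    let M := (Finset.range v).sup L
    refine ⟨max l M, OCode.mem_eval_rfind.2
      ⟨⟨u, eval_pre_mono x a (le_max_left _ _) hl, e⟩, ?_⟩⟩
    intro m hm
    obtain ⟨w, hw, e'⟩ := hL m hm
    refine ⟨w, eval_pre_mono x a ?_ hw, e'⟩
    exact le_trans (Finset.le_sup (f := L) (Finset.mem_range.2 hm)) (le_max_right _ _)

theorem listOracle_partrec : Partrec₂ listOracle := by
  have h : Computable₂ (fun (l : List ℕ) (k : ℕ) => l[k]?) := Primrec.list_getElem?.to_comp
  exact Computable.ofOption h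

theorem eval_list_partrec (c : OCode) :
    Partrec₂ (fun (l : List ℕ) (n : ℕ) => c.eval (listOracle l) n) := by
  induction c with
  | zero => exact (Computable.const 0).partrec
  | succ => exact (Computable.succ.comp Computable.snd).partrec
  | left => exact (Computable.fst.comp (Computable.unpair.comp Computable.snd)).partrec
  | right => exact (Computable.snd.comp (Computable.unpair.comp Computable.snd)).partrec
  | oracle => exact listOracle_partrec
  | pair a b iha ihb =>
    have h : Partrec (fun p : List ℕ × ℕ =>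
        (a.eval (listOracle p.1) p.2).bind fun u =>
          (b.eval (listOracle p.1) p.2).map fun w => Nat.pair u w) := by
      refine Partrec.bind iha ?_
      refine Partrec.map ?_ ?_
      · exact ihb.comp (Computable.fst.comp Computable.fst) (Computable.snd.comp Computable.fst)
      · exact (Primrec₂.natPair.to_comp).comp (Computable.snd.comp Computable.fst) Computable.snd
    refine h.of_eq ?_
    intro p
    simp only [OCode.eval, Seq.seq, Part.map_eq_map, Part.bind_map]
  | comp a b iha ihb =>
    have h : Partrec (fun p : List ℕ × ℕ =>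
        (b.eval (listOracle p.1) p.2).bind fun u => a.eval (listOracle p.1) u) := by
      refine Partrec.bind ihb ?_
      exact iha.comp (Computable.fst.comp Computable.fst) Computable.snd
    exact h.of_eq fun p => rfl
  | prec a b iha ihb =>
    have h : Partrec (fun p : List ℕ × ℕ =>
        ((Nat.unpair p.2).2.rec (a.eval (listOracle p.1) (Nat.unpair p.2).1) fun y IH =>
          IH.bind fun i => b.eval (listOracle p.1)
            (Nat.pair (Nat.unpair p.2).1 (Nat.pair y i)) : Part ℕ)) := by
      refine Partrec.nat_rec (f := fun p : List ℕ × ℕ => (Nat.unpair p.2).2)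
        (g := fun p : List ℕ × ℕ => a.eval (listOracle p.1) (Nat.unpair p.2).1)
        (h := fun (p : List ℕ × ℕ) (q : ℕ × ℕ) => b.eval (listOracle p.1)
            (Nat.pair (Nat.unpair p.2).1 (Nat.pair q.1 q.2))) ?_ ?_ ?_
      · exact Computable.snd.comp (Computable.unpair.comp Computable.snd)
      · exact iha.comp Computable.fst
          (Computable.fst.comp (Computable.unpair.comp Computable.snd))
      · refine ihb.comp (Computable.fst.comp Computable.fst) ?_
        refine Primrec.to_comp ?_
        refine Primrec₂.natPair.comp ?_ ?_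
        · exact Primrec.fst.comp (Primrec.unpair.comp (Primrec.snd.comp Primrec.fst))
        · exact Primrec₂.natPair.comp (Primrec.fst.comp Primrec.snd)
            (Primrec.snd.comp Primrec.snd)
    refine h.of_eq ?_
    intro p
    simp only [OCode.eval, Part.bind_eq_bind]
  | rfind a iha =>
    have h : Partrec (fun p : List ℕ × ℕ =>
        Nat.rfind fun m => (a.eval (listOracle p.1) (Nat.pair p.2 m)).map
          fun w => decide (w = 0)) := by
      refine Partrec.rfind ?_
      refine Partrec.map ?_ ?_
      · refine iha.comp (Computable.fst.comp Computable.fst) ?_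
        exact (Primrec₂.natPair.comp (Primrec.snd.comp Primrec.fst) Primrec.snd).to_comp
      · have : Primrec (fun w : ℕ => decide (w = 0)) :=
          PrimrecPred.decide (Primrec.eq.comp Primrec.id (Primrec.const 0))
        exact (this.to_comp).comp Computable.snd
    refine h.of_eq ?_
    intro p
    simp only [OCode.eval, Part.map_eq_map]

/-- `q` is computed from prefixes of `p` by a partial recursive function. -/
def PrefixComputes (p q : Baire) : Prop :=
  ∃ φ : List ℕ → ℕ →. ℕ, Partrec₂ φ ∧ ∀ n,
    (∃ l, q n ∈ φ (pre p l) n) ∧ ∀ l v, v ∈ φ (pre p l) n → v = q n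

theorem prefixComputes_of_reducible {p q : Baire}
    (h : TuringReducible (q : ℕ →. ℕ) (p : ℕ →. ℕ)) : PrefixComputes p q := by
  obtain ⟨c, hc⟩ := (OCode.recursiveIn_iff _ _).1 (RecursiveIn.iff_nat.1 h)
  refine ⟨fun l n => c.eval (listOracle l) n, eval_list_partrec c, fun n => ⟨?_, ?_⟩⟩
  · apply eval_compact
    rw [hc]
    simp
  · intro l v hv
    have h1 := OCode.eval_mono (listOracle_pre_le p l) c n v hv
    rw [hc] at h1
    simpa using h1

end Pool.Agent.H70
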