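import Mathlib

/-!
# Computable maps on Baire space and Weihrauch reducibility

This file holds the definitions used to state `NON × LLPO ≤_W RT²₂`, and one sanity check: for
each fixed oracle `x`, the values at `x` of the oracle-computable functionals are exactly the
functions recursive in `x` in the sense of Mathlib (`Nat.RecursiveIn`, the notion behind
`TuringReducible`).
-/

namespace Pool.Agent.H70

/-- Baire space. -/
abbrev Baire := ℕ → ℕ

/-- The partial functions of `n` computed by one oracle algorithm, as a function of the oracle `x`: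
the least class of functionals that contains the constant zero, the successor, the two projections
of Cantor pairing and the oracle, and is closed under pairing, composition, primitive recursion
and unbounded search (the clauses of Mathlib's `Nat.RecursiveIn`, uniformly in the oracle). -/
inductive OracleComputable : (Baire → ℕ →. ℕ) → Prop
  | zero : OracleComputable fun _ _ => Part.some 0
  | succ : OracleComputable fun _ n => Part.some (n + 1)
  | left : OracleComputable fun _ n => Part.some n.unpair.1
  | right : OracleComputable fun _ n => Part.some n.unpair.2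
  | oracle : OracleComputable fun x n => Part.some (x n)
  | pair {Φ Ψ : Baire → ℕ →. ℕ} (hΦ : OracleComputable Φ) (hΨ : OracleComputable Ψ) :
      OracleComputable fun x n => (Φ x n).bind fun a => (Ψ x n).map fun b => Nat.pair a b
  | comp {Φ Ψ : Baire → ℕ →. ℕ} (hΦ : OracleComputable Φ) (hΨ : OracleComputable Ψ) :
      OracleComputable fun x n => (Ψ x n).bind fun a => Φ x a
  | prec {Φ Ψ : Baire → ℕ →. ℕ} (hΦ : OracleComputable Φ) (hΨ : OracleComputable Ψ) :
      OracleComputable fun x n =>
        Nat.rec (Φ x n.unpair.1)
          (fun k v => v.bind fun i => Ψ x (Nat.pair n.unpair.1 (Nat.pair k i))) n.unpair.2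
  | rfind {Φ : Baire → ℕ →. ℕ} (hΦ : OracleComputable Φ) :
      OracleComputable fun x n =>
        Nat.rfind fun m => (Φ x (Nat.pair n m)).map fun k => decide (k = 0)

/-- Sanity check: the functions recursive in `x` in the sense of Mathlib are the values at `x` of
the oracle-computable functionals. -/
theorem recursiveIn_iff_exists_functional (x : Baire) (f : ℕ →. ℕ) :
    Nat.RecursiveIn {(x : ℕ →. ℕ)} f ↔ ∃ Φ : Baire → ℕ →. ℕ, OracleComputable Φ ∧ Φ x = f := by
  have e1 : ∀ (f g : ℕ →. ℕ), (fun n => Nat.pair <$> f n <*> g n : ℕ →. ℕ) =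
      fun n => (f n).bind fun a => (g n).map fun b => Nat.pair a b := by
    intro f g
    funext n
    simp only [Seq.seq, Part.map_eq_map, Part.bind_map]
  constructor
  · intro h
    induction h with
    | zero => exact ⟨_, .zero, rfl⟩
    | succ => exact ⟨_, .succ, rfl⟩
    | left => exact ⟨_, .left, rfl⟩
    | right => exact ⟨_, .right, rfl⟩
    | oracle g hg => exact ⟨_, .oracle, (Set.mem_singleton_iff.mp hg).symm⟩
    | pair _ _ ih₁ ih₂ =>
      obtain ⟨Φ, hΦ, rfl⟩ := ih₁
      obtain ⟨Ψ, hΨ, rfl⟩ := ih₂
      exact ⟨_, .pair hΦ hΨ, (e1 _ _).symm⟩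
    | comp _ _ ih₁ ih₂ =>
      obtain ⟨Φ, hΦ, rfl⟩ := ih₁
      obtain ⟨Ψ, hΨ, rfl⟩ := ih₂
      exact ⟨_, .comp hΦ hΨ, rfl⟩
    | prec _ _ ih₁ ih₂ =>
      obtain ⟨Φ, hΦ, rfl⟩ := ih₁
      obtain ⟨Ψ, hΨ, rfl⟩ := ih₂
      exact ⟨_, .prec hΦ hΨ, rfl⟩
    | rfind _ ih =>
      obtain ⟨Φ, hΦ, rfl⟩ := ih
      exact ⟨_, .rfind hΦ, rfl⟩
  · rintro ⟨Φ, hΦ, rfl⟩
    induction hΦ with
    | zero => exact Nat.RecursiveIn.zero
    | succ => exact Nat.RecursiveIn.succ
    | left => exact Nat.RecursiveIn.left
    | right => exact Nat.RecursiveIn.right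
    | oracle => exact Nat.RecursiveIn.oracle _ rfl
    | pair _ _ iha ihb =>
      have := Nat.RecursiveIn.pair iha ihb
      rwa [e1] at this
    | comp _ _ iha ihb => exact Nat.RecursiveIn.comp iha ihb
    | prec _ _ iha ihb => exact Nat.RecursiveIn.prec iha ihb
    | rfind _ iha => exact Nat.RecursiveIn.rfind iha

/-- Cantor space as a subset of Baire space: the sequences of zeros and ones. -/
def cantor : Set Baire := {p | ∀ n, p n = 0 ∨ p n = 1}

/-- A partial map on Baire space is computable if one oracle algorithm computes, for every point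
`x` of its domain, the value at `x` digit by digit from the oracle `x`. -/
def IsComputableMap (F : Baire →. Baire) : Prop :=
  ∃ Φ : Baire → ℕ →. ℕ, OracleComputable Φ ∧
    ∀ x : Baire, ∀ y ∈ F x, ∀ n : ℕ, Φ x n = Part.some (y n)

/-- The standard pairing of two points of Baire space: `x` on the even places, `y` on the odd
places. -/
def join (x y : Baire) : Baire := fun n => if n % 2 = 0 then x (n / 2) else y (n / 2)

/-- A problem: a partial multivalued function on Baire space; `f p` is the set of allowed outputs
on input `p`, and the domain is the set of `p` with `f p` nonempty. All the problems below have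
domain and outputs in Cantor space. -/
abbrev Problem := Baire → Set Baire

/-- `G` is a realizer of `g`: on every point `x` of the domain of `g` it is defined, with a value
in `g x`. -/
def Realizes (G : Baire →. Baire) (g : Problem) : Prop :=
  ∀ x, (g x).Nonempty → ∃ y ∈ G x, y ∈ g x

/-- Weihrauch reducibility `f ≤_W g`: there are computable partial maps `H`, `K` on Baire space
such that for every realizer `G` of `g` the map `p ↦ H ⟨p, G (K p)⟩` is a realizer of `f`. -/
def WeihrauchReducible (f g : Problem) : Prop :=
  ∃ H K : Baire →. Baire, IsComputableMap H ∧ IsComputableMap K ∧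
    ∀ G : Baire →. Baire, Realizes G g →
      Realizes (fun p => (K p).bind fun k => (G k).bind fun h => H (join p h)) f

/-- The product of two problems: `(f × g) ⟨p, p'⟩ = f p × g p'`. -/
def product (f g : Problem) : Problem := fun z =>
  {w | ∃ p p' q q', z = join p p' ∧ w = join q q' ∧ q ∈ f p ∧ q' ∈ g p'}

/-- `NON`: given `p` in Cantor space, find `q` in Cantor space that is not computable relative
to `p` (not Turing reducible to `p`, in the sense of Mathlib). -/
def NON : Problem := fun p =>
  {q | p ∈ cantor ∧ q ∈ cantor ∧ ¬ TuringReducible (q : ℕ →. ℕ) (p : ℕ →. ℕ)}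

/-- The point of Cantor space coding the bit `i`, namely `i, 0, 0, 0, …`. -/
def bitName (i : ℕ) : Baire := fun n => if n = 0 then i else 0

/-- `LLPO`: given `p` in Cantor space with at most one `n` with `p n = 1`, find a bit `i` with
`p (2 n + i) = 0` for all `n`. -/
def LLPO : Problem := fun p =>
  {r | p ∈ cantor ∧ (∀ m n, p m = 1 → p n = 1 → m = n) ∧
    ∃ i, (i = 0 ∨ i = 1) ∧ (∀ n, p (2 * n + i) = 0) ∧ r = bitName i}

/-- `RT²₂`: the point `p` of Cantor space codes the colouring of pairs giving `{x, y}`, `x < y`,
the colour `p ⟨x, y⟩`; an output is the characteristic function of an infinite homogeneous set,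
that is an infinite set on whose pairs the colouring is constant. -/
def RT22 : Problem := fun p =>
  {h | p ∈ cantor ∧ h ∈ cantor ∧ {n | h n = 1}.Infinite ∧
    ∃ j, ∀ x y, x < y → h x = 1 → h y = 1 → p (Nat.pair x y) = j}

end Pool.Agent.H70
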